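import Pool.Agent.H13.NS

open Filter

namespace Pool.Agent.Results.MP_26c4ab_lc.NoGlb

open Pool.Agent.H13.NS

def FeSet (A B : Set ℕ+) : Prop := ∀ E ⊆ A, E.Finite → ∃ k : ℕ+, ∀ x ∈ E, k * x ∈ B

def Fe (F G : Ultrafilter ℕ+) : Prop := ∀ B ∈ G, ∃ A ∈ F, FeSet A B

noncomputable def x (n m : ℕ) : ℕ+ := ∏ j ∈ Finset.Ico n m, (pr 0 * pr (j + 1))

lemma pr_dvd_x {n m j : ℕ} : pr (j + 1) ∣ x n m ↔ n ≤ j ∧ j < m := by
  constructor
  · intro h
    rw [PNat.dvd_iff, x, show ((∏ j ∈ Finset.Ico n m, (pr 0 * pr (j + 1)) : ℕ+) : ℕ) = _ from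
      map_prod PNat.coeMonoidHom _ _] at h
    obtain ⟨i, hi, h⟩ := (pr_prime _).prime.exists_mem_finset_dvd h
    rcases (pr_prime _).dvd_mul.1 h with h | h <;> have := pr_dvd h
    · omega
    · obtain rfl : j = i := by omega
      exact Finset.mem_Ico.1 hi
  · exact fun h => (dvd_mul_left _ _).trans
      (Finset.dvd_prod_of_mem (fun j => pr 0 * pr (j + 1)) (Finset.mem_Ico.2 h))

lemma x_mul {n m l : ℕ} (h1 : n ≤ m) (h2 : m ≤ l) : x n m * x m l = x n l :=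
  Finset.prod_Ico_consecutive _ h1 h2

lemma pow_dvd_x (n j : ℕ) : pr 0 ^ j ∣ x n (n + j) := by
  induction j with
  | zero => simp
  | succ j ih =>
    rw [← add_assoc, ← x_mul (Nat.le_add_right n j) (Nat.le_add_right _ 1), pow_succ]
    refine mul_dvd_mul ih ?_
    simp [x]

theorem result : ∃ F : ℕ → Ultrafilter ℕ+, (∀ i j, i ≤ j → Fe (F j) (F i)) ∧
    ¬ ∃ G, (∀ i, Fe G (F i)) ∧ ∀ H, (∀ i, Fe H (F i)) → Fe H G := by
  let U : Ultrafilter ℕ := hyperfilter ℕ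
  have hU : ∀ k, ∀ᶠ n in (U : Filter ℕ), k ≤ n := fun k =>
    Nat.hyperfilter_le_atTop (eventually_ge_atTop k)
  refine ⟨fun n => U.map (x n), fun i j hij B hB => ?_, ?_⟩
  · refine ⟨{y | x i j * y ∈ B}, ?_, fun E hE _ => ⟨x i j, fun y hy => hE hy⟩⟩
    refine ((hU j).and hB).mono fun m hm => ?_
    change x i j * x j m ∈ B
    rw [x_mul hij hm.1]
    exact hm.2
  rintro ⟨G, h1, h2⟩
  have hp : ∀ j, {y | pr 0 ^ j ∣ y} ∈ G := by
    intro j
    by_contra hc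
    obtain ⟨A, hA, hA'⟩ := h2 (pure (pr 0 ^ j)) (fun i B hB => by
      obtain ⟨m, hm, hm'⟩ := ((hU (i + j)).and hB).exists
      obtain ⟨k, hk⟩ := (pow_dvd_x i j).trans ⟨_, (x_mul (Nat.le_add_right i j) hm).symm⟩
      refine ⟨{pr 0 ^ j}, rfl, fun E hE _ => ⟨k, fun y hy => ?_⟩⟩
      rw [hE hy, mul_comm, ← hk]
      exact hm') _ (Ultrafilter.compl_mem_iff_notMem.2 hc)
    obtain ⟨k, hk⟩ := hA' {_} (Set.singleton_subset_iff.2 hA) (Set.finite_singleton _)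
    exact hk _ rfl (dvd_mul_left _ _)
  have hA : ∀ n, ∃ A ∈ G, FeSet A (Set.range (x n)) := fun n => h1 n _ range_mem_map
  choose A hA hA' using hA
  have hdv : ∀ n, ∀ a ∈ A n, ∀ j, pr (j + 1) ∣ a → n ≤ j := by
    intro n a ha j hj
    obtain ⟨k, hk⟩ := hA' n {a} (Set.singleton_subset_iff.2 ha) (Set.finite_singleton _)
    obtain ⟨m, hm⟩ := hk a rfl
    exact (pr_dvd_x.1 (hm ▸ hj.mul_left k)).1
  have hlt : ∀ a : ℕ+, ∀ᶠ b in (G : Filter ℕ+), a < b := fun a =>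
    mem_of_superset (hp a) fun b hb => lt_of_lt_of_le (by
      rw [← PNat.coe_lt_coe, PNat.pow_coe]
      exact Nat.lt_pow_self (pr_prime 0).one_lt) (PNat.le_of_dvd hb)
  obtain ⟨a, ha⟩ := G.nonempty_of_mem (hA 0)
  obtain ⟨b, hab, hb⟩ := ((hlt a).and (hA 0)).exists
  obtain ⟨c, hac, hc, hc'⟩ := ((hlt a).and (inter_mem (hA 0) (hA b))).exists
  obtain ⟨k, hk⟩ := hA' 0 {a, b, c} (by simp only [Set.insert_subset_iff, Set.singleton_subset_iff]; exact ⟨ha, hb, hc⟩) (Set.toFinite _)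
  obtain ⟨m, hm⟩ := hk a (by simp)
  have key : ∀ d ∈ ({a, b, c} : Set ℕ+), a < d → pr (m + 1) ∣ d := by
    intro d hd had
    obtain ⟨l, hl⟩ := hk d hd
    have hml : m < l := by
      by_contra hh
      have := PNat.le_of_dvd (show x 0 l ∣ x 0 m from ⟨_, (x_mul (Nat.zero_le _) (not_lt.1 hh)).symm⟩)
      rw [hm, hl] at this
      exact absurd (le_of_mul_le_mul_left' this) (not_le.2 had)
    rw [← x_mul (Nat.zero_le m) hml.le, hm, mul_assoc] at hl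
    rw [← mul_left_cancel hl]
    exact (pr_dvd_x.2 ⟨le_rfl, hml⟩).mul_left a
  have e1 := PNat.le_of_dvd (key b (by simp) hab)
  have e2 := hdv _ c hc' m (key c (by simp) hac)
  have e3 : m + 1 ≤ (pr (m + 1) : ℕ) :=
    (Nat.nth_strictMono Nat.infinite_setOfPred_prime).le_apply
  have e4 : (pr (m + 1) : ℕ) ≤ b := e1
  omega

end Pool.Agent.Results.MP_26c4ab_lc.NoGlb
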